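import Mathlib
import Pool.Agent.R47.GPArith

/-!
# The vertex cover number of generalized Petersen graphs
-/

set_option autoImplicit false

open Finset

namespace Pool.Agent.Results.MP_86031e_co.GenPetersenVertexCover

/-- The generalized Petersen graph `P(n, k)`; `(i, false)` is the vertex `u_i` and `(i, true)` is
the vertex `v_i`. -/
def GP (n k : ℕ) : SimpleGraph (ZMod n × Bool) :=
  SimpleGraph.fromRel fun x y =>
    (x.2 = false ∧ y.2 = false ∧ y.1 = x.1 + 1) ∨ (x.2 = false ∧ y.2 = true ∧ y.1 = x.1) ∨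
      (x.2 = true ∧ y.2 = true ∧ y.1 = x.1 + (k : ZMod n))

/-- The vertex cover number: the minimum size of a set of vertices meeting every edge. -/
noncomputable def vertexCoverNum {V : Type*} (G : SimpleGraph V) : ℕ :=
  sInf {c | ∃ S : Finset V, (∀ x y, G.Adj x y → x ∈ S ∨ y ∈ S) ∧ S.card = c}

section colouring

variable (n k m : ℕ)

/-- The signs. -/
def sgn (a : ℕ) : ZMod 2 := (a : ZMod 2) + ((a * m / n : ℕ) : ZMod 2)

theorem sgn_periodic (hn : 0 < n) (hm : (m : ZMod 2) = (n : ZMod 2)) :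
    Function.Periodic (sgn n m) n := by
  intro a
  unfold sgn
  have h1 : (a + n) * m / n = a * m / n + m := by
    rw [add_mul, Nat.add_mul_div_left _ _ hn]
  rw [h1]
  push_cast
  rw [hm]
  have h2 : (n : ZMod 2) + n = 0 := CharTwo.add_self_eq_zero _
  linear_combination h2

theorem sum_shift (f : ℕ → ℤ) (c : ℤ) (hf : ∀ a, f (a + n) = f a + c) (k : ℕ) :
    ∑ a ∈ range n, f (a + k) = ∑ a ∈ range n, f a + k * c := by
  induction k with
  | zero => simp
  | succ k ih =>
    have h1 := sum_range_succ (fun a => f (a + k)) n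
    have h2 := sum_range_succ' (fun a => f (a + k)) n
    have h3 : f (n + k) = f k + c := by rw [add_comm n k]; exact hf k
    have h4 : ∑ a ∈ range n, f (a + (k + 1)) = ∑ a ∈ range n, f (a + 1 + k) :=
      sum_congr rfl fun a _ => by rw [add_assoc, add_comm k 1]
    simp only [zero_add] at h2
    rw [h4]
    push_cast
    linarith

theorem count_outer (hn : 0 < n) :
    (((range n).filter fun a => sgn n m a = sgn n m (a + 1)).card : ℤ) ≤ m := by
  have hper : ∀ a, (((a + n) * m / n : ℕ) : ℤ) = ((a * m / n : ℕ) : ℤ) + m := by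
    intro a
    have h1 : (a + n) * m / n = a * m / n + m := by
      rw [add_mul, Nat.add_mul_div_left _ _ hn]
    rw [h1]
    push_cast
    rfl
  have hs := sum_shift n (fun a => ((a * m / n : ℕ) : ℤ)) m hper 1
  have h1 : (((range n).filter fun a => sgn n m a = sgn n m (a + 1)).card : ℤ) ≤
      ∑ a ∈ range n, ((((a + 1) * m / n : ℕ) : ℤ) - ((a * m / n : ℕ) : ℤ)) := by
    rw [card_filter]
    push_cast
    refine sum_le_sum fun a _ => ?_
    have h0 : a * m / n ≤ (a + 1) * m / n := Nat.div_le_div_right (Nat.mul_le_mul_right _ (by omega))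
    by_cases h : sgn n m a = sgn n m (a + 1)
    · rw [if_pos h]
      have : a * m / n ≠ (a + 1) * m / n := by
        intro heq
        unfold sgn at h
        rw [← heq] at h
        push_cast at h
        have h3 : (1 : ZMod 2) = 0 := by linear_combination -h
        exact absurd h3 (by decide)
      have h4 : a * m / n + 1 ≤ (a + 1) * m / n := by omega
      have h5 : (((a * m / n + 1 : ℕ)) : ℤ) ≤ (((a + 1) * m / n : ℕ) : ℤ) := by exact_mod_cast h4
      push_cast at h5 ⊢
      linarith
    · rw [if_neg h]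
      have h5 : (((a * m / n : ℕ)) : ℤ) ≤ (((a + 1) * m / n : ℕ) : ℤ) := by exact_mod_cast h0
      linarith
  rw [sum_sub_distrib] at h1
  push_cast at hs h1
  linarith

theorem count_inner (hn : 0 < n) (j : ℤ) (hj : (j : ZMod 2) = (k : ZMod 2) + 1) :
    (((range n).filter fun a => sgn n m a = sgn n m (a + k)).card : ℤ) ≤
      |(k : ℤ) * m - j * n| := by
  have hper : ∀ a, (((a + n) * m / n : ℕ) : ℤ) = ((a * m / n : ℕ) : ℤ) + m := by
    intro a
    have h1 : (a + n) * m / n = a * m / n + m := by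
      rw [add_mul, Nat.add_mul_div_left _ _ hn]
    rw [h1]
    push_cast
    rfl
  have hs := sum_shift n (fun a => ((a * m / n : ℕ) : ℤ)) m hper k
  have h1 : (((range n).filter fun a => sgn n m a = sgn n m (a + k)).card : ℤ) ≤
      ∑ a ∈ range n, |(((a + k) * m / n : ℕ) : ℤ) - ((a * m / n : ℕ) : ℤ) - j| := by
    rw [card_filter, Nat.cast_sum]
    refine sum_le_sum fun a _ => ?_
    by_cases h : sgn n m a = sgn n m (a + k)
    · rw [if_pos h, Nat.cast_one]
      apply Int.one_le_abs
      intro h0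
      have h2 := congrArg (Int.cast : ℤ → ZMod 2) h0
      rw [Int.cast_sub, Int.cast_sub, Int.cast_natCast, Int.cast_natCast, Int.cast_zero, hj] at h2
      unfold sgn at h
      rw [Nat.cast_add a k] at h
      have h22 : (2 : ZMod 2) = 0 := by decide
      have h3 : (1 : ZMod 2) = 0 := by linear_combination -h - h2 - (k : ZMod 2) * h22
      exact absurd h3 (by decide)
    · rw [if_neg h, Nat.cast_zero]
      exact abs_nonneg _
  refine le_trans h1 (le_of_eq ?_)
  have hn' : (0 : ℤ) < n := by exact_mod_cast hn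
  rcases le_total (j * n) ((k : ℤ) * m) with hle | hle
  · have h2 : ∀ a ∈ range n, |(((a + k) * m / n : ℕ) : ℤ) - ((a * m / n : ℕ) : ℤ) - j| =
        (((a + k) * m / n : ℕ) : ℤ) - ((a * m / n : ℕ) : ℤ) - j := by
      intro a _
      apply abs_of_nonneg
      push_cast
      have h3 : ((a : ℤ) * m + j * n) / n ≤ ((a : ℤ) + k) * m / n := by
        apply Int.ediv_le_ediv hn'
        linarith
      rw [Int.add_mul_ediv_right _ _ hn'.ne'] at h3
      linarith
    rw [sum_congr rfl h2, sum_sub_distrib, sum_sub_distrib, hs, abs_of_nonneg (by linarith)]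
    simp
    ring
  · have h2 : ∀ a ∈ range n, |(((a + k) * m / n : ℕ) : ℤ) - ((a * m / n : ℕ) : ℤ) - j| =
        -((((a + k) * m / n : ℕ) : ℤ) - ((a * m / n : ℕ) : ℤ) - j) := by
      intro a _
      apply abs_of_nonpos
      push_cast
      have h3 : ((a : ℤ) + k) * m / n ≤ ((a : ℤ) * m + j * n) / n := by
        apply Int.ediv_le_ediv hn'
        linarith
      rw [Int.add_mul_ediv_right _ _ hn'.ne'] at h3
      linarith
    rw [sum_congr rfl h2, sum_neg_distrib, sum_sub_distrib, sum_sub_distrib, hs,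
      abs_of_nonpos (by linarith)]
    simp
    ring

end colouring

theorem card_val_filter (n : ℕ) [NeZero n] (p : ℕ → Prop) [DecidablePred p] :
    (univ.filter fun i : ZMod n => p i.val).card = ((range n).filter p).card := by
  rw [← card_image_of_injective _ (ZMod.val_injective n)]
  congr 1
  ext a
  rw [mem_image, mem_filter, mem_range]
  constructor
  · rintro ⟨i, hi, rfl⟩
    exact ⟨ZMod.val_lt i, (mem_filter.1 hi).2⟩
  · rintro ⟨ha, hp⟩
    refine ⟨(a : ZMod n), ?_, ZMod.val_cast_of_lt ha⟩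
    rw [mem_filter, ZMod.val_cast_of_lt ha]
    exact ⟨mem_univ _, hp⟩

theorem indep_card (n : ℕ) [NeZero n] (A B : Finset (ZMod n)) (G : SimpleGraph (ZMod n × Bool))
    (h : G.IsIndepSet {x : ZMod n × Bool | (x.2 = false ∧ x.1 ∈ A) ∨ (x.2 = true ∧ x.1 ∈ B)}) :
    A.card + B.card ≤ G.indepNum := by
  classical
  have h1 : (A.image (fun i => (i, false)) ∪ B.image (fun i => (i, true))).card =
      A.card + B.card := by
    rw [card_union_of_disjoint, card_image_of_injective, card_image_of_injective]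
    · intro a b hab
      exact (Prod.mk.inj hab).1
    · intro a b hab
      exact (Prod.mk.inj hab).1
    · rw [disjoint_left]
      intro x hx hx'
      rw [mem_image] at hx hx'
      obtain ⟨a, -, rfl⟩ := hx
      obtain ⟨b, -, hb⟩ := hx'
      exact Bool.noConfusion (Prod.mk.inj hb).2
  rw [← h1]
  apply SimpleGraph.IsIndepSet.card_le_indepNum
  refine Set.Pairwise.mono ?_ h
  intro x hx
  rw [mem_coe, mem_union, mem_image, mem_image] at hx
  rcases hx with ⟨a, ha, rfl⟩ | ⟨b, hb, rfl⟩
  · exact Or.inl ⟨rfl, ha⟩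
  · exact Or.inr ⟨rfl, hb⟩

theorem rel_indep (n k : ℕ) (X : Set (ZMod n × Bool))
    (h1 : ∀ i, (i, false) ∈ X → (i + 1, false) ∉ X) (h2 : ∀ i, (i, false) ∈ X → (i, true) ∉ X)
    (h3 : ∀ i, (i, true) ∈ X → (i + (k : ZMod n), true) ∉ X) : (GP n k).IsIndepSet X := by
  rintro ⟨i, a⟩ hx ⟨j, b⟩ hy _ hadj
  rw [GP, SimpleGraph.fromRel_adj] at hadj
  rcases hadj with ⟨-, (⟨ha, hb, hij⟩ | ⟨ha, hb, hij⟩ | ⟨ha, hb, hij⟩) |
    (⟨ha, hb, hij⟩ | ⟨ha, hb, hij⟩ | ⟨ha, hb, hij⟩)⟩
  all_goals
    simp only at ha hb hij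
    subst ha hb hij
  · exact h1 _ hx hy
  · exact h2 _ hx hy
  · exact h3 _ hx hy
  · exact h1 _ hy hx
  · exact h2 _ hy hx
  · exact h3 _ hy hx

theorem z2 : ∀ a b : ZMod 2, a ≠ b → (a = 0 ∧ b ≠ 0) ∨ (a = 1 ∧ b ≠ 1) := by decide
theorem z2' : ∀ a b : ZMod 2, a ≠ b → (a ≠ 0 ∧ b = 0) ∨ (a ≠ 1 ∧ b = 1) := by decide

/-- The independent set given by a good pair. -/
theorem alpha_of_pair (n k m : ℕ) (hn : 0 < n) (j : ℤ) (N : ℕ) (hm : (m : ZMod 2) = (n : ZMod 2))
    (hj : (j : ZMod 2) = (k : ZMod 2) + 1) (hF : (m : ℤ) + |(k : ℤ) * m - j * n| ≤ 2 * N) :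
    n ≤ (GP n k).indepNum + N := by
  classical
  have : NeZero n := ⟨hn.ne'⟩
  have hper := sgn_periodic n m hn hm
  have hval1 : ∀ i : ZMod n, sgn n m (i + 1).val = sgn n m (i.val + 1) := by
    intro i
    have h1 : (i + 1).val = (i.val + 1) % n := by
      have : i + 1 = ((i.val + 1 : ℕ) : ZMod n) := by
        push_cast
        rw [ZMod.natCast_zmod_val]
      rw [this, ZMod.val_natCast]
    rw [h1, hper.map_mod_nat]
  have hvalk : ∀ i : ZMod n, sgn n m (i + (k : ZMod n)).val = sgn n m (i.val + k) := by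
    intro i
    have h1 : (i + (k : ZMod n)).val = (i.val + k) % n := by
      have : i + (k : ZMod n) = ((i.val + k : ℕ) : ZMod n) := by
        push_cast
        rw [ZMod.natCast_zmod_val]
      rw [this, ZMod.val_natCast]
    rw [h1, hper.map_mod_nat]
  let A : ZMod 2 → Finset (ZMod n) := fun c =>
    univ.filter fun i => sgn n m i.val = c ∧ sgn n m (i.val + 1) ≠ c
  let B : ZMod 2 → Finset (ZMod n) := fun c =>
    univ.filter fun i => sgn n m i.val ≠ c ∧ sgn n m (i.val + k) = c
  have hI : ∀ c, (A c).card + (B c).card ≤ (GP n k).indepNum := by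
    intro c
    apply indep_card
    have hA : ∀ i, (i, false) ∈ {x : ZMod n × Bool | (x.2 = false ∧ x.1 ∈ A c) ∨
        (x.2 = true ∧ x.1 ∈ B c)} ↔ (sgn n m i.val = c ∧ sgn n m (i.val + 1) ≠ c) := by
      intro i
      simp [A]
    have hB : ∀ i, (i, true) ∈ {x : ZMod n × Bool | (x.2 = false ∧ x.1 ∈ A c) ∨
        (x.2 = true ∧ x.1 ∈ B c)} ↔ (sgn n m i.val ≠ c ∧ sgn n m (i.val + k) = c) := by
      intro i
      simp [B]
    apply rel_indep
    · intro i h1 h2
      rw [hA] at h1 h2
      rw [hval1] at h2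
      exact h1.2 h2.1
    · intro i h1 h2
      rw [hA] at h1
      rw [hB] at h2
      exact h2.1 h1.1
    · intro i h1 h2
      rw [hB] at h1 h2
      rw [hvalk] at h2
      exact h2.1 h1.2
  have hcA : ((range n).filter fun a => sgn n m a ≠ sgn n m (a + 1)).card ≤
      (A 0).card + (A 1).card := by
    rw [← card_val_filter]
    refine le_trans (card_le_card ?_) (card_union_le _ _)
    intro i hi
    rw [mem_filter] at hi
    rw [mem_union, mem_filter, mem_filter]
    rcases z2 _ _ hi.2 with h | h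
    · exact Or.inl ⟨mem_univ _, h⟩
    · exact Or.inr ⟨mem_univ _, h⟩
  have hcB : ((range n).filter fun a => sgn n m a ≠ sgn n m (a + k)).card ≤
      (B 0).card + (B 1).card := by
    rw [← card_val_filter]
    refine le_trans (card_le_card ?_) (card_union_le _ _)
    intro i hi
    rw [mem_filter] at hi
    rw [mem_union, mem_filter, mem_filter]
    rcases z2' _ _ hi.2 with h | h
    · exact Or.inl ⟨mem_univ _, h⟩
    · exact Or.inr ⟨mem_univ _, h⟩
  have h1 := card_filter_add_card_filter_not (s := range n)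
    (fun a => sgn n m a = sgn n m (a + 1))
  have h2 := card_filter_add_card_filter_not (s := range n)
    (fun a => sgn n m a = sgn n m (a + k))
  rw [card_range] at h1 h2
  have h3 := count_outer n m hn
  have h4 := count_inner n k m hn j hj
  have h5 := hI 0
  have h6 := hI 1
  simp only [ne_eq] at hcA hcB
  omega

/-- The independent set of `P(n, 2)`. -/
theorem two_set (n : ℕ) (hn : 3 ≤ n) : ∃ X : Finset (ZMod n × Bool),
    (GP n 2).IsIndepSet (X : Set (ZMod n × Bool)) ∧ n ≤ X.card + (n + 4) / 5 := by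
  classical
  have : NeZero n := ⟨by omega⟩
  let A : Finset (ZMod n) := univ.filter fun i => (i.val % 5 = 0 ∨ i.val % 5 = 3) ∧ i.val + 1 < n
  let B : Finset (ZMod n) := univ.filter fun i => (i.val % 5 = 1 ∨ i.val % 5 = 2) ∧ i.val + 1 < n
  have hv1 : ∀ i : ZMod n, (i + 1).val = (i.val + 1) % n := by
    intro i
    have : i + 1 = ((i.val + 1 : ℕ) : ZMod n) := by
      push_cast
      rw [ZMod.natCast_zmod_val]
    rw [this, ZMod.val_natCast]
  have hv2 : ∀ i : ZMod n, (i + ((2 : ℕ) : ZMod n)).val = (i.val + 2) % n := by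
    intro i
    have : i + ((2 : ℕ) : ZMod n) = ((i.val + 2 : ℕ) : ZMod n) := by
      rw [Nat.cast_add, ZMod.natCast_zmod_val]
    rw [this, ZMod.val_natCast]
  refine ⟨A.image (fun i => (i, false)) ∪ B.image (fun i => (i, true)), ?_, ?_⟩
  · have hA : ∀ i, (i, false) ∈ ((A.image (fun i => (i, false)) ∪ B.image (fun i => (i, true)) :
        Finset (ZMod n × Bool)) : Set (ZMod n × Bool)) ↔
        ((i.val % 5 = 0 ∨ i.val % 5 = 3) ∧ i.val + 1 < n) := by
      intro i
      simp [A]
    have hB : ∀ i, (i, true) ∈ ((A.image (fun i => (i, false)) ∪ B.image (fun i => (i, true)) :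
        Finset (ZMod n × Bool)) : Set (ZMod n × Bool)) ↔
        ((i.val % 5 = 1 ∨ i.val % 5 = 2) ∧ i.val + 1 < n) := by
      intro i
      simp [B]
    apply rel_indep
    · intro i h1 h2
      rw [hA] at h1 h2
      rw [hv1, Nat.mod_eq_of_lt h1.2] at h2
      omega
    · intro i h1 h2
      rw [hA] at h1
      rw [hB] at h2
      omega
    · intro i h1 h2
      rw [hB] at h1 h2
      rw [hv2] at h2
      rcases Nat.lt_or_ge (i.val + 2) n with h | h
      · rw [Nat.mod_eq_of_lt h] at h2
        omega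
      · have : i.val + 2 = n := by omega
        rw [this, Nat.mod_self] at h2
        omega
  · have hcard : (A.image (fun i => (i, false)) ∪ B.image (fun i => (i, true)) :
        Finset (ZMod n × Bool)).card = A.card + B.card := by
      rw [card_union_of_disjoint, card_image_of_injective, card_image_of_injective]
      · intro a b hab
        exact (Prod.mk.inj hab).1
      · intro a b hab
        exact (Prod.mk.inj hab).1
      · rw [disjoint_left]
        intro x hx hx'
        rw [mem_image] at hx hx'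
        obtain ⟨a, -, rfl⟩ := hx
        obtain ⟨b, -, hb⟩ := hx'
        exact Bool.noConfusion (Prod.mk.inj hb).2
    have hAB : A.card + B.card = (A ∪ B).card := by
      rw [card_union_of_disjoint]
      rw [disjoint_left]
      intro i hi hi'
      rw [mem_filter] at hi hi'
      omega
    have hU : (A ∪ B).card = ((range n).filter fun a => a % 5 ≠ 4 ∧ a + 1 < n).card := by
      rw [← card_val_filter]
      congr 1
      ext i
      rw [mem_union, mem_filter, mem_filter, mem_filter]
      constructor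
      · rintro (⟨-, h⟩ | ⟨-, h⟩)
        · exact ⟨mem_univ _, by omega⟩
        · exact ⟨mem_univ _, by omega⟩
      · rintro ⟨-, h⟩
        by_cases h' : i.val % 5 = 0 ∨ i.val % 5 = 3
        · exact Or.inl ⟨mem_univ _, h', h.2⟩
        · exact Or.inr ⟨mem_univ _, by omega, h.2⟩
    have hcnt : ∀ M : ℕ, ((range M).filter fun a => a % 5 ≠ 4).card + M / 5 = M := by
      intro M
      induction M with
      | zero => simp
      | succ M ih =>
        rw [range_add_one, filter_insert]
        by_cases h : M % 5 ≠ 4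
        · rw [if_pos h, card_insert_of_notMem (by simp)]
          omega
        · rw [if_neg h]
          omega
    have hrange : ((range n).filter fun a => a % 5 ≠ 4 ∧ a + 1 < n) =
        (range (n - 1)).filter fun a => a % 5 ≠ 4 := by
      ext a
      rw [mem_filter, mem_filter, mem_range, mem_range]
      omega
    have := hcnt (n - 1)
    rw [hcard, hAB, hU, hrange]
    omega

/-- `P(2 k + 1, k)` is isomorphic to `P(2 k + 1, 2)`. -/
theorem alpha_iso (k : ℕ) (hk : 1 ≤ k) :
    2 * k + 1 ≤ (GP (2 * k + 1) k).indepNum + ((2 * k + 1) + 4) / 5 := by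
  classical
  set n := 2 * k + 1 with hn
  have : NeZero n := ⟨by omega⟩
  obtain ⟨X, hX, hXc⟩ := two_set n (by omega)
  have h0 : 2 * (k : ZMod n) + 1 = 0 := by
    have : ((n : ℕ) : ZMod n) = 0 := ZMod.natCast_self n
    rw [hn] at this
    push_cast at this
    exact this
  let f : ZMod n × Bool → ZMod n × Bool := fun x => (2 * x.1, !x.2)
  let g : ZMod n × Bool → ZMod n × Bool := fun x => (-(k : ZMod n) * x.1, !x.2)
  have hfg : ∀ x, f (g x) = x := by
    rintro ⟨i, b⟩
    show (2 * (-(k : ZMod n) * i), !!b) = (i, b)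
    rw [Bool.not_not]
    congr 1
    linear_combination (-i) * h0
  have hgf : ∀ x, g (f x) = x := by
    rintro ⟨i, b⟩
    show (-(k : ZMod n) * (2 * i), !!b) = (i, b)
    rw [Bool.not_not]
    congr 1
    linear_combination (-i) * h0
  have hadj : ∀ x y, (GP n k).Adj x y → (GP n 2).Adj (f x) (f y) := by
    have hrel : ∀ x y : ZMod n × Bool, ((x.2 = false ∧ y.2 = false ∧ y.1 = x.1 + 1) ∨
        (x.2 = false ∧ y.2 = true ∧ y.1 = x.1) ∨
        (x.2 = true ∧ y.2 = true ∧ y.1 = x.1 + (k : ZMod n))) → f x ≠ f y →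
        (GP n 2).Adj (f x) (f y) := by
      rintro ⟨i, a⟩ ⟨j, b⟩ h hne
      rw [GP, SimpleGraph.fromRel_adj]
      refine ⟨hne, ?_⟩
      rcases h with ⟨ha, hb, hij⟩ | ⟨ha, hb, hij⟩ | ⟨ha, hb, hij⟩
      all_goals
        simp only at ha hb hij
        subst ha hb hij
      · left; right; right
        refine ⟨rfl, rfl, ?_⟩
        show 2 * (i + 1) = 2 * i + ((2 : ℕ) : ZMod n)
        push_cast
        ring
      · right; right; left
        exact ⟨rfl, rfl, rfl⟩
      · right; left
        refine ⟨rfl, rfl, ?_⟩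
        show 2 * i = 2 * (i + (k : ZMod n)) + 1
        linear_combination -h0
    intro x y hxy
    have hne : f x ≠ f y := by
      intro h
      have := congrArg g h
      rw [hgf, hgf] at this
      exact hxy.ne this
    rw [GP, SimpleGraph.fromRel_adj] at hxy
    rcases hxy with ⟨-, h | h⟩
    · exact hrel x y h hne
    · exact (hrel y x h hne.symm).symm
  have hginj : Function.Injective g := fun x y hxy => by
    rw [← hfg x, ← hfg y, hxy]
  have hind : (GP n k).IsIndepSet ((X.image g : Finset (ZMod n × Bool)) :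
      Set (ZMod n × Bool)) := by
    intro x hx y hy _ hxy
    rw [mem_coe, mem_image] at hx hy
    obtain ⟨x', hx', rfl⟩ := hx
    obtain ⟨y', hy', rfl⟩ := hy
    have := hadj _ _ hxy
    rw [hfg, hfg] at this
    exact hX (mem_coe.2 hx') (mem_coe.2 hy') this.ne this
  have := hind.card_le_indepNum
  rw [card_image_of_injective _ hginj] at this
  omega

theorem alpha (n k : ℕ) (hn : 3 ≤ n) (hk : 1 ≤ k) (h2k : 2 * k < n) :
    n ≤ (GP n k).indepNum + (n + 4) / 5 := by
  have : NeZero n := ⟨by omega⟩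
  by_cases h1 : k = 2
  · subst h1
    obtain ⟨X, hX, hXc⟩ := two_set n hn
    have := hX.card_le_indepNum
    omega
  · by_cases h2 : n = 2 * k + 1
    · subst h2
      exact alpha_iso k hk
    · obtain ⟨m, j, hm, hj, hF⟩ := Pool.Agent.R47.GPArith.exists_pair n k hn hk h2k h1 h2
      exact alpha_of_pair n k m (by omega) j _ hm hj hF

/-- For all `n ≥ 3` and `1 ≤ k < n / 2`, `β(P(n, k)) ≤ n + ⌈n / 5⌉` and
`α(P(n, k)) ≥ ⌊4 n / 5⌋`. -/
theorem result (n k : ℕ) (hn : 3 ≤ n) (hk : 1 ≤ k) (h2k : 2 * k < n) :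
    vertexCoverNum (GP n k) ≤ n + ⌈(n : ℝ) / 5⌉₊ ∧ 4 * n / 5 ≤ (GP n k).indepNum := by
  classical
  have : NeZero n := ⟨by omega⟩
  have hα := alpha n k hn hk h2k
  refine ⟨?_, by omega⟩
  have hceil : (n + 4) / 5 ≤ ⌈(n : ℝ) / 5⌉₊ := by
    by_contra hc
    push Not at hc
    have h1 : ⌈(n : ℝ) / 5⌉₊ * 5 < n := by omega
    have h2 : (n : ℝ) / 5 ≤ (⌈(n : ℝ) / 5⌉₊ : ℝ) := Nat.le_ceil _
    have h3 : ((⌈(n : ℝ) / 5⌉₊ * 5 : ℕ) : ℝ) < n := by exact_mod_cast h1
    push_cast at h3
    linarith
  obtain ⟨X, hX⟩ := (GP n k).exists_isNIndepSet_indepNum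
  refine le_trans (Nat.sInf_le ⟨Xᶜ, ?_, rfl⟩) ?_
  · intro x y hxy
    by_contra hcon
    push Not at hcon
    rw [mem_compl, mem_compl, not_not, not_not] at hcon
    exact hX.isIndepSet (mem_coe.2 hcon.1) (mem_coe.2 hcon.2) hxy.ne hxy
  · rw [card_compl, hX.card_eq, Fintype.card_prod, Fintype.card_bool, ZMod.card]
    omega

end Pool.Agent.Results.MP_86031e_co.GenPetersenVertexCover
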